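import Mathlib

/-!
# The minority-edge inequality for a two-colouring of the pairs of points of the line
-/

set_option autoImplicit false

open Finset

namespace Q229.Spread

variable {n : ℕ}

/-- number of `i` such that both pairs `ij`, `ik` have the colour opposite to that of `jk`. -/
noncomputable def N (s : Fin n → Fin n → ℝ) (j k : Fin n) : ℝ :=
  ∑ i, (if s i j = -s j k ∧ s i k = -s j k then (1 : ℝ) else 0)

lemma N_nonneg (s : Fin n → Fin n → ℝ) (j k : Fin n) : 0 ≤ N s j k :=
  sum_nonneg fun i _ => by split_ifs <;> norm_num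

lemma N_neg (s : Fin n → Fin n → ℝ) (j k : Fin n) : N (fun i j => -s i j) j k = N s j k := by
  unfold N
  refine sum_congr rfl fun i _ => ?_
  have : (-s i j = - -s j k ∧ -s i k = - -s j k) ↔ (s i j = -s j k ∧ s i k = -s j k) := by
    constructor <;> rintro ⟨h1, h2⟩ <;> constructor <;> linarith
  simp only [this]

lemma one_le_N {s : Fin n → Fin n → ℝ} {j k i : Fin n} (h1 : s i j = -s j k)
    (h2 : s i k = -s j k) : 1 ≤ N s j k := by
  unfold N
  have := single_le_sum (f := fun i => if s i j = -s j k ∧ s i k = -s j k then (1 : ℝ) else 0)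
    (fun i _ => by positivity) (mem_univ i)
  simpa [h1, h2] using this

/-- squared distance -/
def w (v : Fin n → ℝ) (j k : Fin n) : ℝ := (v j - v k) ^ 2

lemma w_nonneg (v : Fin n → ℝ) (j k : Fin n) : 0 ≤ w v j k := sq_nonneg _

lemma w_symm (v : Fin n → ℝ) (j k : Fin n) : w v j k = w v k j := by unfold w; ring

lemma w_self (v : Fin n → ℝ) (j : Fin n) : w v j j = 0 := by unfold w; ring

/-- the identity for the squared norm of the signed Laplacian of `v` -/
lemma norm_sq (s : Fin n → Fin n → ℝ) (hs : ∀ i j, s i j = s j i) (v : Fin n → ℝ) :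
    ∑ i, (∑ j, s i j * (v i - v j)) ^ 2 =
      (∑ j, ∑ k, w v j k * ∑ i, (s j k * (s i j + s i k) - s i j * s i k)) / 2 := by
  have e1 : ∑ i, (∑ j, s i j * (v i - v j)) ^ 2 =
      ((∑ i, ∑ j, ∑ k, s i j * s i k * w v i j) + (∑ i, ∑ j, ∑ k, s i j * s i k * w v i k)
        - ∑ i, ∑ j, ∑ k, s i j * s i k * w v j k) / 2 := by
    rw [← sum_add_distrib, ← sum_sub_distrib, sum_div]
    refine sum_congr rfl fun i _ => ?_
    rw [← sum_add_distrib, ← sum_sub_distrib, sum_div, sq, sum_mul_sum]
    refine sum_congr rfl fun j _ => ?_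
    rw [← sum_add_distrib, ← sum_sub_distrib, sum_div]
    refine sum_congr rfl fun k _ => ?_
    unfold w; ring
  have e2 : ∑ j, ∑ k, w v j k * ∑ i, (s j k * (s i j + s i k) - s i j * s i k) =
      (∑ j, ∑ k, ∑ i, s j k * s i j * w v j k) + (∑ j, ∑ k, ∑ i, s j k * s i k * w v j k)
        - ∑ j, ∑ k, ∑ i, s i j * s i k * w v j k := by
    rw [← sum_add_distrib, ← sum_sub_distrib]
    refine sum_congr rfl fun j _ => ?_
    rw [← sum_add_distrib, ← sum_sub_distrib]
    refine sum_congr rfl fun k _ => ?_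
    rw [← sum_add_distrib, ← sum_sub_distrib, mul_sum]
    refine sum_congr rfl fun i _ => ?_
    ring
  have e3 : (∑ j, ∑ k, ∑ i, s j k * s i j * w v j k) = ∑ i, ∑ j, ∑ k, s i j * s i k * w v i j := by
    refine sum_congr rfl fun j _ => sum_congr rfl fun k _ => sum_congr rfl fun i _ => ?_
    rw [hs i j]
  have e4 : (∑ j, ∑ k, ∑ i, s j k * s i k * w v j k) =
      ∑ i, ∑ j, ∑ k, s i j * s i k * w v i k := by
    -- rename (j,k,i) -> (b,a,c): both sides are sums over (a,b,c) of s a b * s a c * w a b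
    have l : (∑ j, ∑ k, ∑ i, s j k * s i k * w v j k) =
        ∑ a, ∑ b, ∑ c, s a b * s a c * w v a b := by
      rw [sum_comm]
      refine sum_congr rfl fun a _ => sum_congr rfl fun b _ => sum_congr rfl fun c _ => ?_
      rw [hs b a, hs c a, w_symm v b a]
    have r : (∑ i, ∑ j, ∑ k, s i j * s i k * w v i k) =
        ∑ a, ∑ b, ∑ c, s a b * s a c * w v a b := by
      refine sum_congr rfl fun a _ => ?_
      rw [sum_comm]
      refine sum_congr rfl fun b _ => sum_congr rfl fun c _ => ?_
      ring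
    rw [l, r]
  have e5 : (∑ j, ∑ k, ∑ i, s i j * s i k * w v j k) =
      ∑ i, ∑ j, ∑ k, s i j * s i k * w v j k := by
    have : (∑ j, ∑ k, ∑ i, s i j * s i k * w v j k) =
        ∑ j, ∑ i, ∑ k, s i j * s i k * w v j k :=
      sum_congr rfl fun j _ => sum_comm
    rw [this, sum_comm]
  rw [e1, e2, e3, e4, e5]

lemma inner_sum {s : Fin n → Fin n → ℝ} (h1 : ∀ i j, s i j = 1 ∨ s i j = -1) (j k : Fin n) :
    ∑ i, (s j k * (s i j + s i k) - s i j * s i k) = n - 4 * N s j k := by
  have : ∀ i, (s j k * (s i j + s i k) - s i j * s i k) =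
      1 - 4 * (if s i j = -s j k ∧ s i k = -s j k then (1 : ℝ) else 0) := by
    intro i
    rcases h1 j k with a | a <;> rcases h1 i j with b | b <;> rcases h1 i k with c | c <;>
      rw [a, b, c] <;> norm_num
  rw [sum_congr rfl fun i _ => this i, sum_sub_distrib, ← mul_sum]
  simp [N]

/-- the pairs of colour `1` whose closed neighbourhoods (in colour `1`) cover everything -/
noncomputable def F (s : Fin n → Fin n → ℝ) : Finset (Fin n × Fin n) :=
  univ.filter fun p => p.1 ≠ p.2 ∧ s p.1 p.2 = 1 ∧ ∀ i, s i p.1 = 1 ∨ s i p.2 = 1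

lemma mem_F {s : Fin n → Fin n → ℝ} {c d : Fin n} :
    (c, d) ∈ F s ↔ c ≠ d ∧ s c d = 1 ∧ ∀ i, s i c = 1 ∨ s i d = 1 := by
  simp [F]

lemma F_swap {s : Fin n → Fin n → ℝ} (hs : ∀ i j, s i j = s j i) {c d : Fin n}
    (h : (c, d) ∈ F s) : (d, c) ∈ F s := by
  rw [mem_F] at h ⊢
  exact ⟨h.1.symm, by rw [hs]; exact h.2.1, fun i => (h.2.2 i).symm⟩

lemma sum_F_swap {s : Fin n → Fin n → ℝ} (hs : ∀ i j, s i j = s j i) (g : Fin n × Fin n → ℝ) :
    ∑ p ∈ F s, g p.swap = ∑ p ∈ F s, g p := by
  refine sum_nbij' Prod.swap Prod.swap ?_ ?_ ?_ ?_ ?_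
  · rintro ⟨c, d⟩ h; exact F_swap hs h
  · rintro ⟨c, d⟩ h; exact F_swap hs h
  · intro p _; simp
  · intro p _; simp
  · intro p _; simp

/-- indicator of colour `-1` times squared distance -/
noncomputable def bw (s : Fin n → Fin n → ℝ) (v : Fin n → ℝ) (c y : Fin n) : ℝ :=
  if s c y = -1 then w v c y else 0

lemma bw_nonneg (s : Fin n → Fin n → ℝ) (v : Fin n → ℝ) (c y : Fin n) : 0 ≤ bw s v c y := by
  unfold bw; split_ifs
  · exact w_nonneg _ _ _
  · exact le_rfl

/-- total squared length of the sides of colour `-1` of the quadrilateral `c a d b` -/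
noncomputable def BS (s : Fin n → Fin n → ℝ) (v : Fin n → ℝ) (f g : Fin n × Fin n) : ℝ :=
  bw s v f.1 g.1 + bw s v f.1 g.2 + (bw s v f.2 g.1 + bw s v f.2 g.2)

noncomputable def E2 (s : Fin n → Fin n → ℝ) (v : Fin n → ℝ) : ℝ :=
  ∑ j, ∑ k, w v j k * N s j k

noncomputable def R2 (s : Fin n → Fin n → ℝ) (v : Fin n → ℝ) : ℝ :=
  ∑ j, ∑ k, if s j k = 1 then w v j k else 0

noncomputable def EB (s : Fin n → Fin n → ℝ) (v : Fin n → ℝ) : ℝ :=
  ∑ j, ∑ k, bw s v j k * N s j k

lemma E2_sub_R2 {s : Fin n → Fin n → ℝ} (h1 : ∀ i j, s i j = 1 ∨ s i j = -1)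
    (v : Fin n → ℝ) : EB s v - ∑ p ∈ F s, w v p.1 p.2 ≤ E2 s v - R2 s v := by
  have e : ∑ p ∈ F s, w v p.1 p.2 = ∑ j, ∑ k, if (j, k) ∈ F s then w v j k else 0 := by
    rw [← Fintype.sum_prod_type' (f := fun j k => if (j, k) ∈ F s then w v j k else 0)]
    rw [← sum_filter]
    refine sum_congr ?_ fun _ _ => rfl
    ext p; simp
  rw [e]
  unfold EB E2 R2
  rw [← sum_sub_distrib, ← sum_sub_distrib]
  refine sum_le_sum fun j _ => ?_
  rw [← sum_sub_distrib, ← sum_sub_distrib]
  refine sum_le_sum fun k _ => ?_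
  have hw := w_nonneg v j k
  have hN := N_nonneg s j k
  rcases h1 j k with a | a
  · have hb : bw s v j k = 0 := by unfold bw; rw [a]; norm_num
    rw [hb, if_pos a, zero_mul]
    by_cases hF : (j, k) ∈ F s
    · rw [if_pos hF]; nlinarith
    · rw [if_neg hF]
      by_cases hjk : j = k
      · subst hjk; simp [w_self]
      · have : ∃ i, ¬ (s i j = 1 ∨ s i k = 1) := by
          by_contra hcon
          push Not at hcon
          exact hF (mem_F.2 ⟨hjk, a, hcon⟩)
        obtain ⟨i, hi⟩ := this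
        push Not at hi
        have h2 : s i j = -1 := (h1 i j).resolve_left hi.1
        have h3 : s i k = -1 := (h1 i k).resolve_left hi.2
        have := one_le_N (s := s) (j := j) (k := k) (i := i) (by rw [h2, a]) (by rw [h3, a])
        nlinarith
  · have hb : bw s v j k = w v j k := by unfold bw; rw [if_pos a]
    have hF : (j, k) ∉ F s := by
      intro hF; rw [mem_F] at hF; rw [a] at hF; norm_num at hF
    rw [hb, if_neg hF, if_neg (by rw [a]; norm_num)]

/-- If the pair `ab` has colour `-1` and no common neighbour in colour `1`, the sides of colour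
`-1` of all the quadrilaterals `c a d b`, `cd ∈ F`, are paid by the triangles. -/
lemma sum_BS_le {s : Fin n → Fin n → ℝ} (hs : ∀ i j, s i j = s j i)
    (h1 : ∀ i j, s i j = 1 ∨ s i j = -1) (v : Fin n → ℝ) {a b : Fin n} (hab : a ≠ b)
    (sab : s a b = -1) (hN : ∀ i, s i a = -1 ∨ s i b = -1) :
    ∑ p ∈ F s, BS s v p (a, b) ≤ EB s v := by
  classical
  have hne : (1 : ℝ) ≠ -1 := by norm_num
  -- `a` and `b` are not endpoints of edges of `F`
  have ha : ∀ c d, (c, d) ∈ F s → c ≠ a ∧ c ≠ b := by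
    intro c d h
    rw [mem_F] at h
    obtain ⟨hcd, scd, hF⟩ := h
    constructor
    · rintro rfl
      -- c = a
      rcases hN d with h2 | h2
      · rw [hs] at h2; rw [scd] at h2; exact hne h2
      · rcases hF b with h3 | h3
        · rw [hs] at h3; rw [sab] at h3; exact hne h3.symm
        · rw [hs] at h3; rw [h3] at h2; exact hne h2
    · rintro rfl
      rcases hN d with h2 | h2
      · rcases hF a with h3 | h3
        · rw [sab] at h3; exact hne h3.symm
        · rw [hs] at h3; rw [h3] at h2; exact hne h2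
      · rw [hs] at h2; rw [scd] at h2; exact hne h2
  set t : Fin n → ℝ := fun c => bw s v c a + bw s v c b with ht
  have e1 : ∑ p ∈ F s, BS s v p (a, b) = 2 * ∑ p ∈ F s, t p.1 := by
    have : ∑ p ∈ F s, t p.2 = ∑ p ∈ F s, t p.1 := by
      rw [← sum_F_swap hs (fun p => t p.1)]; rfl
    calc ∑ p ∈ F s, BS s v p (a, b) = ∑ p ∈ F s, (t p.1 + t p.2) :=
          sum_congr rfl fun p _ => rfl
      _ = _ := by rw [sum_add_distrib, this]; ring
  set X : Finset (Fin n) := (F s).image Prod.fst with hX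
  set r : Fin n → ℝ := fun c => (((F s).filter fun p => p.1 = c).card : ℝ) with hr
  have e2 : ∑ p ∈ F s, t p.1 = ∑ c ∈ X, r c * t c := by
    rw [← sum_fiberwise_of_maps_to (s := F s) (t := X) (g := Prod.fst)
      (fun p hp => mem_image_of_mem _ hp)]
    refine sum_congr rfl fun c _ => ?_
    rw [sum_congr rfl (g := fun _ => t c) (fun p hp => by rw [(mem_filter.1 hp).2])]
    rw [sum_const, nsmul_eq_mul]
  -- bound on the degree
  have hdeg : ∀ c y, s c y = -1 → r c ≤ N s c y := by
    intro c y hcy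
    have : r c ≤ ((univ.filter fun i => s i c = -s c y ∧ s i y = -s c y).card : ℝ) := by
      simp only [hr]
      norm_cast
      refine card_le_card_of_injOn Prod.snd ?_ ?_
      · rintro ⟨c', d⟩ h
        have h' := mem_filter.1 (mem_coe.1 h)
        have hc : c' = c := h'.2
        subst hc
        have h3 := mem_F.1 h'.1
        refine mem_coe.2 (mem_filter.2 ⟨mem_univ _, ?_, ?_⟩)
        · rw [hcy, hs d c', h3.2.1]; norm_num
        · rcases h3.2.2 y with h4 | h4
          · rw [hs] at h4; rw [h4] at hcy; exact absurd hcy hne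
          · rw [hs d y, h4, hcy]; norm_num
      · rintro ⟨c1, d1⟩ hp ⟨c2, d2⟩ hq h
        have hp' := (mem_filter.1 (mem_coe.1 hp)).2
        have hq' := (mem_filter.1 (mem_coe.1 hq)).2
        simp only at h hp' hq'
        rw [hp', hq', h]
    refine this.trans (le_of_eq ?_)
    unfold N
    rw [card_filter]
    push_cast
    rfl
  have hG : ∀ c y, r c * bw s v c y ≤ bw s v c y * N s c y := by
    intro c y
    rcases h1 c y with h | h
    · have : bw s v c y = 0 := by unfold bw; rw [h]; norm_num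
      rw [this]; simp
    · rw [mul_comm]
      exact mul_le_mul_of_nonneg_left (hdeg c y h) (bw_nonneg _ _ _ _)
  set G : Fin n → Fin n → ℝ := fun j k => bw s v j k * N s j k with hGd
  have hG0 : ∀ j k, 0 ≤ G j k := fun j k => mul_nonneg (bw_nonneg _ _ _ _) (N_nonneg _ _ _)
  have Nsym : ∀ j k, N s j k = N s k j := by
    intro j k
    unfold N
    refine sum_congr rfl fun i _ => ?_
    rw [hs k j]
    exact if_congr and_comm rfl rfl
  have hGs : ∀ j k, G j k = G k j := by
    intro j k
    simp only [hGd]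
    rw [Nsym j k]
    unfold bw
    rw [hs j k, w_symm v j k]
  have haX : a ∉ X := by
    intro h
    obtain ⟨⟨c, d⟩, hp, hc⟩ := mem_image.1 h
    exact (ha c d hp).1 hc
  have hbX : b ∉ X := by
    intro h
    obtain ⟨⟨c, d⟩, hp, hc⟩ := mem_image.1 h
    exact (ha c d hp).2 hc
  have hdisj : Disjoint X {a, b} := by
    rw [disjoint_left]
    intro c hc hc'
    rcases mem_insert.1 hc' with rfl | h
    · exact haX hc
    · rw [mem_singleton.1 h] at hc; exact hbX hc
  have e3 : (∑ j ∈ X, (G j a + G j b)) + (∑ k ∈ X, (G a k + G b k)) ≤ EB s v := by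
    calc (∑ j ∈ X, (G j a + G j b)) + (∑ k ∈ X, (G a k + G b k))
        ≤ (∑ j ∈ X, ∑ k, G j k) + (∑ j ∈ ({a, b} : Finset (Fin n)), ∑ k, G j k) := by
          refine add_le_add ?_ ?_
          · refine sum_le_sum fun j _ => ?_
            rw [← sum_pair hab (f := fun k => G j k)]
            exact sum_le_sum_of_subset_of_nonneg (subset_univ _) fun k _ _ => hG0 j k
          · rw [sum_pair hab, sum_add_distrib]
            exact add_le_add
              (sum_le_sum_of_subset_of_nonneg (subset_univ _) fun k _ _ => hG0 a k)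
              (sum_le_sum_of_subset_of_nonneg (subset_univ _) fun k _ _ => hG0 b k)
      _ = ∑ j ∈ X ∪ {a, b}, ∑ k, G j k := (sum_union hdisj).symm
      _ ≤ ∑ j, ∑ k, G j k :=
          sum_le_sum_of_subset_of_nonneg (subset_univ _) fun j _ _ => sum_nonneg fun k _ => hG0 j k
      _ = EB s v := rfl
  rw [e1, e2]
  refine le_trans ?_ e3
  have e4 : ∑ k ∈ X, (G a k + G b k) = ∑ j ∈ X, (G j a + G j b) :=
    sum_congr rfl fun k _ => by rw [hGs a k, hGs b k]
  rw [e4, ← two_mul]
  refine mul_le_mul_of_nonneg_left ?_ (by norm_num)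
  refine sum_le_sum fun c _ => ?_
  have h1 := hG c a
  have h2 := hG c b
  simp only [ht, hGd]
  linarith

/-- the first half: `E - R ≥ ∑ (blue sides - |cd|²)` -/
lemma half {s : Fin n → Fin n → ℝ} (hs : ∀ i j, s i j = s j i)
    (h1 : ∀ i j, s i j = 1 ∨ s i j = -1) (v : Fin n → ℝ) {g : Fin n × Fin n}
    (hg : g ∈ F (fun i j => -s i j)) :
    ∑ p ∈ F s, (BS s v p g - w v p.1 p.2) ≤ E2 s v - R2 s v := by
  obtain ⟨a, b⟩ := g
  rw [mem_F] at hg
  have := sum_BS_le hs h1 v hg.1 (by linarith [hg.2.1]) (fun i => by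
    rcases hg.2.2 i with h | h
    · left; linarith
    · right; linarith)
  have h2 := E2_sub_R2 h1 v
  rw [sum_sub_distrib]
  linarith

lemma E2_neg (s : Fin n → Fin n → ℝ) (v : Fin n → ℝ) : E2 (fun i j => -s i j) v = E2 s v := by
  unfold E2
  exact sum_congr rfl fun j _ => sum_congr rfl fun k _ => by rw [N_neg]

lemma F_neg_neg (s : Fin n → Fin n → ℝ) : F (fun i j => - -s i j) = F s := by
  congr 1; funext i j; ring

/-- **The minority-edge inequality.** -/
theorem minority {s : Fin n → Fin n → ℝ} (hs : ∀ i j, s i j = s j i)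
    (h1 : ∀ i j, s i j = 1 ∨ s i j = -1) (v : Fin n → ℝ) :
    R2 s v ≤ E2 s v ∨ R2 (fun i j => -s i j) v ≤ E2 s v := by
  classical
  set s' : Fin n → Fin n → ℝ := fun i j => -s i j with hs'
  have hs2 : ∀ i j, s' i j = s' j i := fun i j => by simp only [hs']; rw [hs]
  have h12 : ∀ i j, s' i j = 1 ∨ s' i j = -1 := fun i j => by
    simp only [hs']
    rcases h1 i j with h | h
    · right; rw [h]
    · left; rw [h]; norm_num
  have hE : E2 s' v = E2 s v := E2_neg s v
  by_cases hF : (F s).Nonempty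
  swap
  · left
    rw [not_nonempty_iff_eq_empty] at hF
    have h2 := E2_sub_R2 h1 v
    rw [hF, sum_empty, sub_zero] at h2
    have : 0 ≤ EB s v := sum_nonneg fun j _ => sum_nonneg fun k _ =>
      mul_nonneg (bw_nonneg _ _ _ _) (N_nonneg _ _ _)
    linarith
  by_cases hF' : (F s').Nonempty
  swap
  · right
    rw [not_nonempty_iff_eq_empty] at hF'
    have h2 := E2_sub_R2 h12 v
    rw [hF', sum_empty, sub_zero] at h2
    have : 0 ≤ EB s' v := sum_nonneg fun j _ => sum_nonneg fun k _ =>
      mul_nonneg (bw_nonneg _ _ _ _) (N_nonneg _ _ _)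
    linarith
  by_contra hcon
  push Not at hcon
  obtain ⟨c1, c2⟩ := hcon
  have A : ∑ g ∈ F s', ∑ f ∈ F s, (BS s v f g - w v f.1 f.2) < 0 := by
    refine sum_neg (fun g hg => ?_) hF'
    exact lt_of_le_of_lt (half hs h1 v hg) (by linarith)
  have B : ∑ f ∈ F s, ∑ g ∈ F s', (BS s' v g f - w v g.1 g.2) < 0 := by
    refine sum_neg (fun f hf => ?_) hF
    refine lt_of_le_of_lt (half hs2 h12 v (g := f) ?_) (by rw [hE]; linarith)
    have : F (fun i j => -s' i j) = F s := F_neg_neg s
    rw [this]; exact hf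
  rw [sum_comm] at B
  have C : 0 ≤ (∑ g ∈ F s', ∑ f ∈ F s, (BS s v f g - w v f.1 f.2)) +
      ∑ g ∈ F s', ∑ f ∈ F s, (BS s' v g f - w v g.1 g.2) := by
    rw [← sum_add_distrib]
    refine sum_nonneg fun g _ => ?_
    rw [← sum_add_distrib]
    refine sum_nonneg fun f _ => ?_
    obtain ⟨a, b⟩ := g
    obtain ⟨c, d⟩ := f
    have key : ∀ x y, bw s v x y + bw s' v y x = w v x y := by
      intro x y
      unfold bw
      have hyx : s' y x = -s x y := by simp only [hs']; rw [hs]
      rcases h1 x y with h | h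
      · rw [hyx, h, if_neg (by norm_num), if_pos rfl, w_symm v y x]; ring
      · rw [hyx, h, if_pos rfl, if_neg (by norm_num)]; ring
    have k1 := key c a
    have k2 := key c b
    have k3 := key d a
    have k4 := key d b
    have : BS s v (c, d) (a, b) - w v c d + (BS s' v (a, b) (c, d) - w v a b) =
        (v a + v b - v c - v d) ^ 2 := by
      unfold BS
      simp only
      have : w v c a + w v c b + (w v d a + w v d b) - w v c d - w v a b =
          (v a + v b - v c - v d) ^ 2 := by unfold w; ring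
      linarith
    simp only at this ⊢
    rw [this]; exact sq_nonneg _
  linarith

end Q229.Spread
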