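import Pool.Agent.Q229.Spread.Core

/-!
# The norm bound for signed and for weighted Laplacians
-/

set_option autoImplicit false

open Finset

namespace Q229.Spread

variable {n : ℕ}

/-- the signed Laplacian applied to `v` -/
def hv (s : Fin n → Fin n → ℝ) (v : Fin n → ℝ) (i : Fin n) : ℝ := ∑ j, s i j * (v i - v j)

/-- twice the sum of all squared distances -/
def W2 (v : Fin n → ℝ) : ℝ := ∑ j, ∑ k, w v j k

/-- twice the signed sum of squared distances -/
def C2 (s : Fin n → Fin n → ℝ) (v : Fin n → ℝ) : ℝ := ∑ j, ∑ k, s j k * w v j k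

lemma bound_sign {s : Fin n → Fin n → ℝ} (hs : ∀ i j, s i j = s j i)
    (h1 : ∀ i j, s i j = 1 ∨ s i j = -1) (v : Fin n → ℝ) :
    ∑ i, hv s v i ^ 2 ≤ (n / 2 - 1) * W2 v + |C2 s v| := by
  have e1 : ∑ i, hv s v i ^ 2 = (n / 2) * W2 v - 2 * E2 s v := by
    unfold hv
    rw [norm_sq s hs v]
    have : ∑ j, ∑ k, w v j k * ∑ i, (s j k * (s i j + s i k) - s i j * s i k) =
        n * W2 v - 4 * E2 s v := by
      unfold W2 E2
      rw [mul_sum, mul_sum, ← sum_sub_distrib]
      refine sum_congr rfl fun j _ => ?_
      rw [mul_sum, mul_sum, ← sum_sub_distrib]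
      refine sum_congr rfl fun k _ => ?_
      rw [inner_sum h1]; ring
    rw [this]; ring
  have e2 : R2 s v = (W2 v + C2 s v) / 2 := by
    unfold R2 W2 C2
    rw [← sum_add_distrib, sum_div]
    refine sum_congr rfl fun j _ => ?_
    rw [← sum_add_distrib, sum_div]
    refine sum_congr rfl fun k _ => ?_
    rcases h1 j k with h | h
    · rw [if_pos h, h]; ring
    · rw [h, if_neg (by norm_num)]; ring
  have e3 : R2 (fun i j => -s i j) v = (W2 v - C2 s v) / 2 := by
    unfold R2 W2 C2
    rw [← sum_sub_distrib, sum_div]
    refine sum_congr rfl fun j _ => ?_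
    rw [← sum_sub_distrib, sum_div]
    refine sum_congr rfl fun k _ => ?_
    rcases h1 j k with h | h
    · simp only [h]; rw [if_neg (by norm_num)]; ring
    · simp only [h]; rw [if_pos (by norm_num)]; ring
  have a1 := le_abs_self (C2 s v)
  have a2 := neg_abs_le (C2 s v)
  rcases minority hs h1 v with h | h
  · rw [e1]; nlinarith
  · rw [e1]; nlinarith

/-- change the weight of the pair `ab` to `t` -/
def upd (s : Fin n → Fin n → ℝ) (a b : Fin n) (t : ℝ) (i j : Fin n) : ℝ :=
  if (i = a ∧ j = b) ∨ (i = b ∧ j = a) then t else s i j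

lemma upd_symm {s : Fin n → Fin n → ℝ} (hs : ∀ i j, s i j = s j i) (a b : Fin n) (t : ℝ)
    (i j : Fin n) : upd s a b t i j = upd s a b t j i := by
  unfold upd
  by_cases h : (i = a ∧ j = b) ∨ (i = b ∧ j = a)
  · rw [if_pos h, if_pos (by tauto)]
  · rw [if_neg h, if_neg (by tauto), hs]

lemma sum_upd {s : Fin n → Fin n → ℝ} (hs : ∀ i j, s i j = s j i) {a b : Fin n} (hab : a ≠ b)
    (t : ℝ) (g : Fin n → Fin n → ℝ) (i : Fin n) :
    ∑ j, upd s a b t i j * g i j = ∑ j, s i j * g i j +
      (t - s a b) * ((if i = a then g a b else 0) + (if i = b then g b a else 0)) := by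
  have e : ∀ j, upd s a b t i j * g i j = s i j * g i j +
      ((if j = b then (if i = a then (t - s a b) * g a b else 0) else 0) +
        (if j = a then (if i = b then (t - s a b) * g b a else 0) else 0)) := by
    intro j
    unfold upd
    by_cases h1 : i = a ∧ j = b
    · obtain ⟨rfl, rfl⟩ := h1
      simp [hab]; ring
    · by_cases h2 : i = b ∧ j = a
      · obtain ⟨rfl, rfl⟩ := h2
        simp [hab.symm, hab, hs i j]; ring
      · rw [if_neg (by tauto)]
        have z1 : (if j = b then (if i = a then (t - s a b) * g a b else 0) else 0) = 0 := by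
          split_ifs with h3 h4
          · exact absurd ⟨h4, h3⟩ h1
          · rfl
          · rfl
        have z2 : (if j = a then (if i = b then (t - s a b) * g b a else 0) else 0) = 0 := by
          split_ifs with h3 h4
          · exact absurd ⟨h4, h3⟩ h2
          · rfl
          · rfl
        rw [z1, z2]; ring
  rw [sum_congr rfl fun j _ => e j, sum_add_distrib, sum_add_distrib, sum_ite_eq' univ b,
    sum_ite_eq' univ a, if_pos (mem_univ _), if_pos (mem_univ _)]
  split_ifs <;> ring

/-- the weighted bound -/
lemma bound_aux (v : Fin n → ℝ) (S : Finset (Fin n × Fin n)) :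
    ∀ s : Fin n → Fin n → ℝ, (∀ i j, s i j = s j i) → (∀ i j, |s i j| ≤ 1) →
      (∀ i j, (i, j) ∉ S → s i j = 1 ∨ s i j = -1) →
      ∑ i, hv s v i ^ 2 ≤ (n / 2 - 1) * W2 v + |C2 s v| := by
  classical
  induction S using Finset.induction_on with
  | empty =>
    intro s hs _ h1
    exact bound_sign hs (fun i j => h1 i j (notMem_empty _)) v
  | insert p S _ ih =>
    obtain ⟨a, b⟩ := p
    intro s hs hle h1
    by_cases hab : a = b
    · -- a diagonal entry is irrelevant
      subst hab
      have key := ih (upd s a a 1) (upd_symm hs a a 1) (by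
        intro i j
        unfold upd
        split_ifs
        · norm_num
        · exact hle i j) (by
        intro i j hij
        unfold upd
        by_cases h : (i = a ∧ j = a) ∨ (i = a ∧ j = a)
        · rw [if_pos h]; left; rfl
        · rw [if_neg h]
          refine h1 i j ?_
          intro h'
          rcases mem_insert.1 h' with h'' | h''
          · rw [Prod.mk.injEq] at h''; tauto
          · exact hij h'')
      have e1 : ∀ i, hv (upd s a a 1) v i = hv s v i := by
        intro i
        unfold hv
        refine sum_congr rfl fun j _ => ?_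
        unfold upd
        split_ifs with h
        · have : i = j := by rcases h with h | h <;> rw [h.1, h.2]
          rw [this]; ring
        · rfl
      have e2 : C2 (upd s a a 1) v = C2 s v := by
        unfold C2
        refine sum_congr rfl fun i _ => sum_congr rfl fun j _ => ?_
        unfold upd
        split_ifs with h
        · have : i = j := by rcases h with h | h <;> rw [h.1, h.2]
          rw [this, w_self]; ring
        · rfl
      rw [e2] at key
      simpa only [e1] using key
    · set t := s a b with ht
      have ht1 : |t| ≤ 1 := hle a b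
      have htl : -1 ≤ t := (abs_le.1 ht1).1
      have htu : t ≤ 1 := (abs_le.1 ht1).2
      have hyp : ∀ τ : ℝ, (τ = 1 ∨ τ = -1) →
          ∑ i, hv (upd s a b τ) v i ^ 2 ≤ (n / 2 - 1) * W2 v + |C2 (upd s a b τ) v| := by
        intro τ hτ
        refine ih _ (upd_symm hs a b τ) ?_ ?_
        · intro i j
          unfold upd
          split_ifs
          · rcases hτ with h | h <;> rw [h] <;> norm_num
          · exact hle i j
        · intro i j hij
          unfold upd
          by_cases h : (i = a ∧ j = b) ∨ (i = b ∧ j = a)
          · rw [if_pos h]; exact hτ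
          · rw [if_neg h]
            refine h1 i j ?_
            intro h'
            rcases mem_insert.1 h' with h'' | h''
            · rw [Prod.mk.injEq] at h''; tauto
            · exact hij h''
      set δ : Fin n → ℝ := fun i => (if i = a then v a - v b else 0) +
        (if i = b then v b - v a else 0) with hδ
      have eh : ∀ τ i, hv (upd s a b τ) v i = hv s v i + (τ - t) * δ i := by
        intro τ i
        unfold hv
        exact sum_upd hs hab τ (fun i j => v i - v j) i
      have ec : ∀ τ, C2 (upd s a b τ) v = C2 s v + 2 * (τ - t) * w v a b := by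
        intro τ
        unfold C2
        rw [sum_congr rfl fun i _ => sum_upd hs hab τ (fun i j => w v i j) i, sum_add_distrib,
          ← mul_sum, sum_add_distrib]
        simp only [sum_ite_eq', mem_univ, if_true]
        rw [w_symm v b a]; ring
      have ed : ∑ i, δ i ^ 2 = 2 * w v a b := by
        have : ∀ i, δ i ^ 2 = (if i = a then w v a b else 0) + (if i = b then w v a b else 0) := by
          intro i
          simp only [hδ]
          by_cases ia : i = a
          · subst ia
            rw [if_pos rfl, if_neg hab, if_pos rfl, if_neg hab]; unfold w; ring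
          · by_cases ib : i = b
            · subst ib
              rw [if_neg ia, if_pos rfl, if_neg ia, if_pos rfl]; unfold w; ring
            · rw [if_neg ia, if_neg ib, if_neg ia, if_neg ib]; ring
        rw [sum_congr rfl fun i _ => this i, sum_add_distrib, sum_ite_eq', sum_ite_eq']
        simp; ring
      have es : ∀ τ, ∑ i, hv (upd s a b τ) v i ^ 2 =
          ∑ i, hv s v i ^ 2 + 2 * (τ - t) * (∑ i, hv s v i * δ i) + (τ - t) ^ 2 * (2 * w v a b) := by
        intro τ
        rw [← ed, mul_sum, mul_sum, ← sum_add_distrib, ← sum_add_distrib]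
        refine sum_congr rfl fun i _ => ?_
        rw [eh]; ring
      have k1 := hyp 1 (Or.inl rfl)
      have k2 := hyp (-1) (Or.inr rfl)
      rw [es, ec] at k1 k2
      have hw := w_nonneg v a b
      set H := ∑ i, hv s v i ^ 2 with hH
      set D := ∑ i, hv s v i * δ i with hD
      set K := ((n : ℝ) / 2 - 1) * W2 v with hK
      set C := C2 s v with hC
      set ω := w v a b with hω
      have a1 : |C + 2 * (1 - t) * ω| ≤ |C| + 2 * (1 - t) * ω := by
        refine (abs_add_le _ _).trans ?_
        rw [abs_of_nonneg (by nlinarith : 0 ≤ 2 * (1 - t) * ω)]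
      have a2 : |C + 2 * (-1 - t) * ω| ≤ |C| + 2 * (1 + t) * ω := by
        refine (abs_add_le _ _).trans ?_
        rw [abs_of_nonpos (by nlinarith : 2 * (-1 - t) * ω ≤ 0)]
        linarith
      have b1 : H + 2 * (1 - t) * D + (1 - t) ^ 2 * (2 * ω) ≤ K + (|C| + 2 * (1 - t) * ω) := by
        linarith
      have b2 : H + 2 * (-1 - t) * D + (-1 - t) ^ 2 * (2 * ω) ≤ K + (|C| + 2 * (1 + t) * ω) := by
        linarith
      have c1 := mul_le_mul_of_nonneg_left b1 (by linarith : (0 : ℝ) ≤ (1 + t) / 2)
      have c2 := mul_le_mul_of_nonneg_left b2 (by linarith : (0 : ℝ) ≤ (1 - t) / 2)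
      nlinarith [c1, c2]

/-- **The norm bound for weighted Laplacians.** -/
theorem bound {s : Fin n → Fin n → ℝ} (hs : ∀ i j, s i j = s j i) (hle : ∀ i j, |s i j| ≤ 1)
    (v : Fin n → ℝ) : ∑ i, hv s v i ^ 2 ≤ (n / 2 - 1) * W2 v + |C2 s v| :=
  bound_aux v univ s hs hle fun i j h => absurd (mem_univ _) h

end Q229.Spread
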